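import Mathlib
import Pool.Agent.Y201.LI.Stm2

/-! # Job ARC of project LI -/

set_option autoImplicit false

namespace Pool.Agent.X167.NC

open MvPolynomial Pool.Agent.Y201.C3 Pool.Agent.Y201.LI

noncomputable section

theorem hom_smul {σ R : Type} [CommRing R] [Algebra ℂ R] {P : MvPolynomial σ ℂ} {d : ℕ}
    (hP : P.IsHomogeneous d) (c : R) (y : σ → R) :
    aeval (fun i => c * y i) P = c ^ d * aeval y P := by
  classical
  rw [aeval_def, aeval_def, eval₂_eq, eval₂_eq, Finset.mul_sum]
  refine Finset.sum_congr rfl fun m hm => ?_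
  have hm' : coeff m P ≠ 0 := by simpa [mem_support_iff] using hm
  have hd : ∑ i ∈ m.support, m i = d := by
    have := hP hm'
    rw [← this, Finsupp.weight_apply, Finsupp.sum]
    simp
  rw [show (∏ i ∈ m.support, (c * y i) ^ m i) = c ^ d * ∏ i ∈ m.support, y i ^ m i by
    rw [← hd, ← Finset.prod_pow_eq_pow_sum, ← Finset.prod_mul_distrib]
    exact Finset.prod_congr rfl fun i _ => mul_pow _ _ _]
  ring

theorem frm_hom (T : Fin 6 → Fin 6 → Fin 6 → ℂ) : (frm T).IsHomogeneous 3 := by
  unfold frm Bf
  refine IsHomogeneous.sum _ _ _ fun i _ => IsHomogeneous.sum _ _ _ fun j _ =>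
    IsHomogeneous.sum _ _ _ fun k _ => ?_
  have := (((isHomogeneous_C (Fin 6) (T i j k)).mul (isHomogeneous_X ℂ i)).mul
    (isHomogeneous_X ℂ j)).mul (isHomogeneous_X ℂ k)
  simpa [algebraMap_eq] using this

theorem expand {σ R : Type} [Fintype σ] [CommRing R] [Algebra ℂ R] (P : MvPolynomial σ ℂ)
    (y w : σ → R) (δ : R) :
    ∃ R' : R, aeval (fun i => y i + δ * w i) P =
      aeval y P + δ * ∑ l, w l * aeval y (pderiv l P) + δ ^ 2 * R' := by
  classical
  induction P using MvPolynomial.induction_on with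
  | C a => exact ⟨0, by simp⟩
  | add p q hp hq =>
    obtain ⟨a, ha⟩ := hp
    obtain ⟨b, hb⟩ := hq
    refine ⟨a + b, ?_⟩
    simp only [map_add, ha, hb, mul_add, Finset.sum_add_distrib]
    ring
  | mul_X p n hp =>
    obtain ⟨a, ha⟩ := hp
    refine ⟨a * y n + (∑ l, w l * aeval y (pderiv l p)) * w n + δ * a * w n, ?_⟩
    have h1 : ∑ l, w l * aeval y (pderiv l (p * X n)) =
        (∑ l, w l * aeval y (pderiv l p)) * y n + aeval y p * w n := by
      have h2 : ∀ l, w l * aeval y (pderiv l (p * X n)) =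
          (w l * aeval y (pderiv l p)) * y n + (if l = n then w l * aeval y p else 0) := by
        intro l
        rw [Derivation.leibniz]
        by_cases hl : l = n
        · subst hl
          simp [pderiv_X_self]
          ring
        · rw [pderiv_X_of_ne (Ne.symm hl)]
          simp [hl]
          ring
      rw [Finset.sum_congr rfl fun l _ => h2 l, Finset.sum_add_distrib, ← Finset.sum_mul]
      simp
      ring
    rw [map_mul, ha, h1, map_mul, aeval_X, aeval_X]
    ring

theorem ev {σ : Type} (v : σ → ℂ) (P : MvPolynomial σ ℂ) : eval v P = aeval v P := by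
  rw [aeval_eq_eval]

theorem local_arc {n k d : ℕ} (F : MvPolynomial (Fin k) ℂ) (hF : F.IsHomogeneous d)
    (G : Fin k → MvPolynomial (Fin n) ℂ) (hFG : aeval G F = 0) (h : Fin n → Polynomial ℂ)
    (x : Fin k → Polynomial ℂ) (u : Polynomial ℂ) (τ : ℂ) (r : ℕ) (hr : 1 ≤ r)
    (hG : ∀ i, aeval h (G i) = (Polynomial.X - Polynomial.C τ) ^ r * (u * x i))
    (w : Fin n → ℂ) :
    eval (fun i => u.eval τ * (x i).eval τ +
      ∑ l, w l * eval (fun l => (h l).eval τ) (pderiv l (G i))) F = 0 := by
  set ε : Polynomial ℂ := Polynomial.X - Polynomial.C τ with hε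
  have hε0 : ε ≠ 0 := Polynomial.X_sub_C_ne_zero τ
  choose R' hR' using fun i => expand (G i) h (fun l => Polynomial.C (w l)) (ε ^ r)
  set K : Fin k → Polynomial ℂ := fun i =>
    u * x i + ∑ l, Polynomial.C (w l) * aeval h (pderiv l (G i)) + ε ^ r * R' i with hK
  have h1 : ∀ i, aeval (fun l => h l + ε ^ r * Polynomial.C (w l)) (G i) = ε ^ r * K i := by
    intro i
    rw [hR' i, hG i, hK]
    ring
  have h2 : aeval (fun i => aeval (fun l => h l + ε ^ r * Polynomial.C (w l)) (G i)) F = 0 := by
    rw [← comp_aeval_apply, hFG, map_zero]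
  rw [funext h1, hom_smul hF] at h2
  have h3 : aeval K F = 0 := by
    rcases mul_eq_zero.1 h2 with h | h
    · exact absurd h (pow_ne_zero _ (pow_ne_zero _ hε0))
    · exact h
  have h4 : aeval (fun i => Polynomial.aeval τ (K i)) F = 0 := by
    rw [← comp_aeval_apply, h3, map_zero]
  have h5 : Polynomial.aeval τ ε = (0 : ℂ) := by simp [hε]
  have h6 : (fun i => u.eval τ * (x i).eval τ +
      ∑ l, w l * eval (fun l => (h l).eval τ) (pderiv l (G i))) =
      fun i => Polynomial.aeval τ (K i) := by
    funext i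
    rw [hK]
    simp only [map_add, map_mul, map_sum, map_pow, Polynomial.aeval_C, comp_aeval_apply, ev]
    rw [h5, zero_pow (by omega), zero_mul, add_zero]
    simp only [Polynomial.coe_aeval_eq_eval, Algebra.algebraMap_self, RingHom.id_apply]
  rw [h6, ev, h4]

theorem pev {n : ℕ} (τ : ℂ) (h : Fin n → Polynomial ℂ) (P : MvPolynomial (Fin n) ℂ) :
    (aeval h P).eval τ = eval (fun l => (h l).eval τ) P := by
  have := comp_aeval_apply h (Polynomial.aeval τ) P
  simp only [Polynomial.coe_aeval_eq_eval] at this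
  rw [ev]
  exact this

theorem rev_eval (f : Polynomial ℂ) (e : ℕ) (hf : f.natDegree ≤ e) (t : ℂ) (ht : t ≠ 0) :
    (Polynomial.reflect e f).eval t = t ^ e * f.eval t⁻¹ := by
  have : Invertible t⁻¹ := invertibleOfNonzero (inv_ne_zero ht)
  have h := Polynomial.eval₂_reflect_mul_pow (RingHom.id ℂ) t⁻¹ e f hf
  rw [invOf_eq_inv, inv_inv] at h
  simp only [Polynomial.eval₂_id] at h
  rw [← h, inv_pow]
  field_simp

theorem finish (F : MvPolynomial (Fin 6) ℂ) (hF : F.IsHomogeneous 3) (u : ℂ) (hu : u ≠ 0)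
    (x₀ : Fin 6 → ℂ) (D : Fin 6 → Fin 5 → ℂ)
    (h : ∀ w : Fin 5 → ℂ, eval (fun i => u * x₀ i + ∑ l, w l * D i l) F = 0) :
    ∀ (s : ℂ) (w : Fin 5 → ℂ), eval (fun i => s * x₀ i + ∑ l, w l * D i l) F = 0 := by
  have h1 : ∀ (s : ℂ), s ≠ 0 → ∀ (w : Fin 5 → ℂ),
      eval (fun i => s * x₀ i + ∑ l, w l * D i l) F = 0 := by
    intro s hs w
    have h2 := h (fun l => u / s * w l)
    have h3 : (fun i => u * x₀ i + ∑ l, u / s * w l * D i l) =
        fun i => (u / s) * (s * x₀ i + ∑ l, w l * D i l) := by
      funext i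
      rw [mul_add, Finset.mul_sum, ← mul_assoc, div_mul_cancel₀ _ hs]
      simp only [mul_assoc]
    rw [h3, ev, hom_smul hF] at h2
    rcases mul_eq_zero.1 h2 with h4 | h4
    · exact absurd h4 (pow_ne_zero _ (div_ne_zero hu hs))
    · rw [ev]; exact h4
  intro s w
  by_cases hs : s = 0
  · subst hs
    set φ : Polynomial ℂ := aeval (fun i => Polynomial.X * Polynomial.C (x₀ i) +
      Polynomial.C (∑ l, w l * D i l)) F with hφ
    have h5 : ∀ t, φ.eval t = eval (fun i => t * x₀ i + ∑ l, w l * D i l) F := by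
      intro t
      rw [hφ, ev]
      have := comp_aeval_apply (fun i => Polynomial.X * Polynomial.C (x₀ i) +
        Polynomial.C (∑ l, w l * D i l)) (Polynomial.aeval t) F
      simp only [Polynomial.coe_aeval_eq_eval] at this
      rw [this]
      simp only [Polynomial.eval_add, Polynomial.eval_mul, Polynomial.eval_X, Polynomial.eval_C,
        ← ev]
    have h6 : Polynomial.X * φ = 0 := by
      apply Polynomial.funext
      intro t
      by_cases ht : t = 0
      · simp [ht]
      · simp [h5 t, h1 t ht w]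
    have h7 : φ = 0 := by
      rcases mul_eq_zero.1 h6 with h | h
      · exact absurd h Polynomial.X_ne_zero
      · exact h
    rw [← h5 0, h7]
    simp
  · exact h1 s hs w

def PP (G : Fin 6 → MvPolynomial (Fin 5) ℂ) (x : Fin 6 → Polynomial ℂ)
    (h : Fin 5 → Polynomial ℂ) : Prop :=
  (∀ i j, aeval h (G i) * x j = aeval h (G j) * x i) ∧ ∃ i, aeval h (G i) ≠ 0

theorem aeval_zero' {P : MvPolynomial (Fin 5) ℂ} (hP : P.IsHomogeneous 3)
    (k : Fin 5 → Polynomial ℂ) (hk : ∀ l, k l = 0) : aeval k P = 0 := by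
  have := hom_smul hP (0 : Polynomial ℂ) k
  have h2 : (fun i => (0 : Polynomial ℂ) * k i) = k := by
    funext i; rw [hk i, mul_zero]
  rw [h2] at this
  rw [this]; simp

theorem minimal (G : Fin 6 → MvPolynomial (Fin 5) ℂ) (hG : ∀ i, (G i).IsHomogeneous 3)
    (x : Fin 6 → Polynomial ℂ) : ∀ (N : ℕ) (h₀ : Fin 5 → Polynomial ℂ), PP G x h₀ →
    ∑ l, (h₀ l).natDegree = N →
    ∃ h, PP G x h ∧ ∀ τ : ℂ, ∃ l, (h l).eval τ ≠ 0 := by
  intro N
  induction N using Nat.strong_induction_on with
  | _ N ih =>
    intro h hh hN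
    by_cases hc : ∀ τ : ℂ, ∃ l, (h l).eval τ ≠ 0
    · exact ⟨h, hh, hc⟩
    push Not at hc
    obtain ⟨τ, hτ⟩ := hc
    have hd : ∀ l, ∃ k, h l = (Polynomial.X - Polynomial.C τ) * k := by
      intro l
      exact Polynomial.dvd_iff_isRoot.2 (hτ l)
    choose k hk using hd
    have hε0 : (Polynomial.X - Polynomial.C τ : Polynomial ℂ) ≠ 0 := Polynomial.X_sub_C_ne_zero τ
    have h1 : ∀ i, aeval h (G i) = (Polynomial.X - Polynomial.C τ) ^ 3 * aeval k (G i) := by
      intro i
      rw [← hom_smul (hG i)]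
      congr 2
      funext l
      exact hk l
    have hPk : PP G x k := by
      refine ⟨fun i j => ?_, ?_⟩
      · have := hh.1 i j
        rw [h1, h1, mul_assoc, mul_assoc] at this
        exact mul_left_cancel₀ (pow_ne_zero 3 hε0) this
      · obtain ⟨i, hi⟩ := hh.2
        refine ⟨i, fun h0 => hi ?_⟩
        rw [h1, h0, mul_zero]
    have hl0 : ∃ l, k l ≠ 0 := by
      by_contra hcon
      push Not at hcon
      obtain ⟨i, hi⟩ := hPk.2
      exact hi (aeval_zero' (hG i) k hcon)
    obtain ⟨l0, hl0⟩ := hl0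
    have hdeg : ∀ l, k l ≠ 0 → (h l).natDegree = (k l).natDegree + 1 := by
      intro l hl
      rw [hk l, Polynomial.natDegree_mul hε0 hl, Polynomial.natDegree_X_sub_C, add_comm]
    have hlt : ∑ l, (k l).natDegree < N := by
      rw [← hN]
      refine Finset.sum_lt_sum (fun l _ => ?_) ⟨l0, Finset.mem_univ _, ?_⟩
      · by_cases hl : k l = 0
        · rw [hl]; simp
        · rw [hdeg l hl]; omega
      · rw [hdeg l0 hl0]; omega
    exact ih _ hlt k hPk rfl

theorem line_zero (T : Fin 6 → Fin 6 → Fin 6 → ℂ) (p q : Fin 6 → ℂ)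
    (hline : ∀ i j k : Fin 2, Bf T (![p, q] i) (![p, q] j) (![p, q] k) = 0) (a b : ℂ) :
    eval (fun i => a * p i + b * q i) (frm T) = 0 := by
  have h1 : eval (fun i => a * p i + b * q i) (frm T) =
      ∑ i, ∑ j, ∑ k, T i j k * (a * p i + b * q i) * (a * p j + b * q j) *
        (a * p k + b * q k) := by
    simp [frm, Bf, algebraMap_eq]
  have h2 : ∑ i, ∑ j, ∑ k, T i j k * (a * p i + b * q i) * (a * p j + b * q j) *
        (a * p k + b * q k) = a ^ 3 * Bf T p p p + a ^ 2 * b * Bf T p p q +
        a ^ 2 * b * Bf T p q p + a ^ 2 * b * Bf T q p p + a * b ^ 2 * Bf T p q q +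
        a * b ^ 2 * Bf T q p q + a * b ^ 2 * Bf T q q p + b ^ 3 * Bf T q q q := by
    simp only [Bf, Finset.mul_sum, ← Finset.sum_add_distrib]
    refine Finset.sum_congr rfl fun i _ => Finset.sum_congr rfl fun j _ =>
      Finset.sum_congr rfl fun k _ => ?_
    simp only [Algebra.algebraMap_self, RingHom.id_apply]
    ring
  have e1 := hline 0 0 0
  have e2 := hline 0 0 1
  have e3 := hline 0 1 0
  have e4 := hline 1 0 0
  have e5 := hline 0 1 1
  have e6 := hline 1 0 1
  have e7 := hline 1 1 0
  have e8 := hline 1 1 1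
  simp only [Matrix.cons_val_zero, Matrix.cons_val_one] at e1 e2 e3 e4 e5 e6 e7 e8
  rw [h1, h2, e1, e2, e3, e4, e5, e6, e7, e8]
  ring

theorem exists_det (p q : Fin 6 → ℂ) (hpq : LinearIndependent ℂ ![p, q]) :
    ∃ a b, p a * q b - p b * q a ≠ 0 := by
  by_contra hcon
  push Not at hcon
  rw [LinearIndependent.pair_iff] at hpq
  have h1 : ∀ a, p a = 0 := by
    intro a
    have := (hpq (q a) (-p a) (by
      funext b
      simp only [Pi.add_apply, Pi.smul_apply, smul_eq_mul, Pi.zero_apply]
      linear_combination (-1 : ℂ) * hcon a b)).2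
    simpa using this
  have := (hpq 1 0 (by funext a; simp [h1 a])).1
  exact one_ne_zero this

theorem arc : S_ARC := by
  intro T hT hsm G hG hFG m H hH hdiv p q hpq hline hne
  have hF := frm_hom T
  have hpq' := LinearIndependent.pair_iff.1 hpq
  obtain ⟨x, hx⟩ : ∃ x : Fin 6 → Polynomial ℂ, ∀ i, x i = Polynomial.C (p i) +
    Polynomial.C (q i) * Polynomial.X := ⟨_, fun i => rfl⟩
  have hxev : ∀ i t, (x i).eval t = p i + t * q i := by
    intro i t
    rw [hx i, Polynomial.eval_add, Polynomial.eval_mul, Polynomial.eval_C, Polynomial.eval_C,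
      Polynomial.eval_X, mul_comm]
  have hxF : aeval x (frm T) = 0 := by
    apply Polynomial.funext
    intro t
    rw [pev]
    have := line_zero T p q hline 1 t
    simp only [hxev, Polynomial.eval_zero]
    simpa using this
  -- initial vector
  have hP0 : PP G x (fun l => aeval x (H l)) := by
    refine ⟨fun i j => ?_, ?_⟩
    · obtain ⟨Q, hQ⟩ := hdiv i j
      have := congrArg (aeval x) hQ
      rw [map_mul, hxF, zero_mul, map_sub, map_mul, map_mul, aeval_X, aeval_X,
        comp_aeval_apply, comp_aeval_apply] at this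
      exact sub_eq_zero.1 this
    · obtain ⟨i, hi⟩ := hne
      refine ⟨i, fun h0 => hi ?_⟩
      rw [← comp_aeval_apply] at h0
      have := congrArg (Polynomial.eval 0) h0
      rw [pev] at this
      simpa [hxev] using this
  obtain ⟨h, hPh, hroot⟩ := minimal G hG x _ _ hP0 rfl
  obtain ⟨a, b, hD⟩ := exists_det p q hpq
  set D := p a * q b - p b * q a with hDdef
  set g : Polynomial ℂ := Polynomial.C D⁻¹ * (Polynomial.C (q b) * aeval h (G a) -
    Polynomial.C (q a) * aeval h (G b)) with hg
  have hgx : ∀ i, aeval h (G i) = g * x i := by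
    intro i
    have h1 := hPh.1 a i
    have h2 := hPh.1 b i
    have h3 : Polynomial.C (q b) * x a - Polynomial.C (q a) * x b = Polynomial.C D := by
      rw [hx, hx, hDdef]
      simp only [Polynomial.C_sub, Polynomial.C_mul]
      ring
    have h4 : Polynomial.C D⁻¹ * Polynomial.C D = (1 : Polynomial ℂ) := by
      rw [← Polynomial.C_mul, inv_mul_cancel₀ hD, Polynomial.C_1]
    rw [hg]
    calc aeval h (G i) = (Polynomial.C D⁻¹ * Polynomial.C D) * aeval h (G i) := by
          rw [h4, one_mul]
      _ = _ := by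
          rw [← h3]
          linear_combination (-(Polynomial.C D⁻¹ * Polynomial.C (q b))) * h1 +
            (Polynomial.C D⁻¹ * Polynomial.C (q a)) * h2
  have hg0 : g ≠ 0 := by
    intro h0
    obtain ⟨i, hi⟩ := hPh.2
    exact hi (by rw [hgx i, h0, zero_mul])
  by_cases hdeg : g.degree = 0
  · -- the point at infinity
    obtain ⟨c, hc⟩ : ∃ c, g = Polynomial.C c := ⟨_, Polynomial.eq_C_of_degree_eq_zero hdeg⟩
    have hc0 : c ≠ 0 := by
      intro h0; apply hg0; rw [hc, h0, Polynomial.C_0]
    set e := Finset.univ.sup (fun l => (h l).natDegree) with he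
    have hle : ∀ l, (h l).natDegree ≤ e := fun l =>
      Finset.le_sup (f := fun l => (h l).natDegree) (Finset.mem_univ l)
    have he1 : 1 ≤ e := by
      by_contra hcon
      have he0 : e = 0 := by omega
      have hconst : ∀ l, h l = Polynomial.C ((h l).coeff 0) := by
        intro l
        exact Polynomial.eq_C_of_natDegree_eq_zero (by have := hle l; omega)
      have h1 : ∀ i, q i = 0 := by
        intro i
        have h2 := hgx i
        have h3 : aeval h (G i) = Polynomial.C (aeval (fun l => (h l).coeff 0) (G i)) := by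
          have := comp_aeval_apply (fun l => (h l).coeff 0) (Polynomial.CAlgHom (R := ℂ) (A := ℂ))
            (G i)
          simp only [Polynomial.CAlgHom_apply] at this
          rw [this]
          congr 2
          funext l
          exact hconst l
        rw [h3, hc, hx i] at h2
        have h4 := congrArg (fun f => Polynomial.coeff f 1) h2
        simp [Polynomial.coeff_C] at h4
        tauto
      have := (hpq' 0 1 (by funext i; simp [h1 i])).2
      exact one_ne_zero this
    obtain ⟨l0, _, hl0⟩ := Finset.exists_mem_eq_sup (Finset.univ : Finset (Fin 5))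
      Finset.univ_nonempty (fun l => (h l).natDegree)
    rw [← he] at hl0
    set k : Fin 5 → Polynomial ℂ := fun l => Polynomial.reflect e (h l) with hk
    have hk0 : ∀ l, (k l).eval 0 = (h l).coeff e := by
      intro l
      rw [← Polynomial.coeff_zero_eq_eval_zero, hk]
      simp only [Polynomial.coeff_reflect]
      rw [Polynomial.revAt_le (Nat.zero_le e), Nat.sub_zero]
    have hkG : ∀ i, aeval k (G i) = (Polynomial.X - Polynomial.C 0) ^ (3 * e - 1) *
        (Polynomial.C c * (Polynomial.C (q i) + Polynomial.C (p i) * Polynomial.X)) := by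
      intro i
      apply mul_left_cancel₀ (Polynomial.X_ne_zero (R := ℂ))
      apply Polynomial.funext
      intro t
      by_cases ht : t = 0
      · simp [ht]
      rw [Polynomial.eval_mul, Polynomial.eval_mul, pev]
      have h1 : (fun l => (k l).eval t) = fun l => t ^ e * (h l).eval t⁻¹ := by
        funext l
        exact rev_eval _ _ (hle l) t ht
      rw [h1, ev, hom_smul (hG i), ← ev, ← pev, hgx i, hc]
      simp only [Polynomial.eval_mul, hxev, Polynomial.eval_C, Polynomial.eval_X,
        Polynomial.eval_pow, Polynomial.eval_sub, Polynomial.eval_add, sub_zero]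
      have h5 : t ^ (3 * e) = t ^ (3 * e - 1) * t := by
        rw [← pow_succ]; congr 1; omega
      rw [← pow_mul, mul_comm e 3, h5]
      field_simp
      ring
    refine ⟨fun l => (k l).eval 0, ?_, ?_, q, ?_, ⟨0, 1, by simp⟩, ?_⟩
    · intro h0
      have h1 := congrFun h0 l0
      simp only [hk0, Pi.zero_apply] at h1
      rw [hl0] at h1
      have h2 : h l0 = 0 := Polynomial.leadingCoeff_eq_zero.1 h1
      rw [h2, Polynomial.natDegree_zero] at hl0
      omega
    · intro i
      rw [← pev, hkG i]
      have : 3 * e - 1 ≠ 0 := by omega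
      simp [this]
    · intro h0
      have := (hpq' 0 1 (by rw [h0]; simp)).2
      exact one_ne_zero this
    · refine finish (frm T) hF c hc0 q _ fun w => ?_
      have := local_arc (frm T) hF G hFG k (fun i => Polynomial.C (q i) + Polynomial.C (p i) *
        Polynomial.X) (Polynomial.C c) 0 (3 * e - 1) (by omega) hkG w
      simpa using this
  · obtain ⟨τ, hτ⟩ := IsAlgClosed.exists_root g hdeg
    obtain ⟨u, hu1, hu2⟩ := Polynomial.exists_eq_pow_rootMultiplicity_mul_and_not_dvd g hg0 τ
    have hr : 1 ≤ Polynomial.rootMultiplicity τ g :=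
      (Polynomial.rootMultiplicity_pos hg0).2 hτ
    have hu : u.eval τ ≠ 0 := fun h0 => hu2 (Polynomial.dvd_iff_isRoot.2 h0)
    refine ⟨fun l => (h l).eval τ, ?_, ?_, fun i => (x i).eval τ, ?_, ⟨1, τ, ?_⟩, ?_⟩
    · intro h0
      obtain ⟨l, hl⟩ := hroot τ
      exact hl (congrFun h0 l)
    · intro i
      rw [← pev, hgx i, Polynomial.eval_mul, hτ, zero_mul]
    · intro h0
      have := (hpq' 1 τ (by
        funext i
        have := congrFun h0 i
        simpa [hxev] using this)).1
      exact one_ne_zero this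
    · funext i; simp [hxev]
    · refine finish (frm T) hF _ hu _ _ fun w => ?_
      refine local_arc (frm T) hF G hFG h x u τ _ hr (fun i => ?_) w
      rw [hgx i, ← mul_assoc, ← hu1]

end

end Pool.Agent.X167.NC
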